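import Pool.Agent.V11288.LZ.Frob

/-!
# Leading terms of the L-functions of varieties at all integers, from point counts

Let `X` be a projective variety of dimension `d` over a number field `K` (`K = ℚ` in the problem), `i ≤ 2d`,
`S` a set of primes of `K` (for example all primes of good reduction) and `α_{v,1}, …, α_{v,N}` the eigenvalues
of Frobenius on `H^i(X)` for `v ∈ S`, determined by the numbers of points of `X` over the extensions of the
residue field.  Let `L(s)` be the Euler product of the factors `∏_j (1 - α_{v,j} q_v^{-s})⁻¹`, `v ∈ S`, for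
`Re s > i/2 + 1`, and let `m` be an integer such that `L` is meromorphic at the points of the real interval
`[m, i/2 + 1]` (condition (H1) of the problem asks for this near `m`).  For Beilinson's conjecture on heights
`i` is odd and `m = (i+1)/2`; other `m` occur in his conjecture on regulators.  The Euler factors at the finitely
many other primes do not vanish at `s = m` and change the leading coefficient by a factor in `ℚ^*` (for these
factors with rational coefficients).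

Let for real `γ ≥ 0` and `Y > 1`, with `u = k log q_v / log Y`,

`W_γ(Y) = ∑_{v ∈ S} ∑_{k ≥ 1} (∑_j α_{v,j}^k) / (k q_v^{km}) · e^{iγu} / Γ(1 + u)`,

and let `V_γ(Y)` be the same sum with `cos(γu)` instead of `e^{iγu}`;
`Λ_γ = ∫_0^∞ (e^{-t} - e^{iγt}/Γ(1+t)) dt/t`.  Let `L^*(m)` be the (real) leading coefficient of `L` at `m`.

1. For `γ > π/2`: `W_γ(Y) = log |L^*(m)| - iπz - r (log log Y - Λ_γ) + O(1/log Y)`, where `r = ord_{s=m} L` and
   `z` is the number of the zeros minus the number of the poles of `L` on the real half line `(m, ∞)`.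

2. (Part (iii) of the problem.)  For `γ > π/2` and `r ∈ ℤ`: `ord_{s=m} L = r` iff
   `V_γ(Y) = -r log log Y + O(1)`.

3. (Parts (iii) and (iv).)  For `γ > π/2`, `r ∈ ℤ` and `D ≠ 0`: `ord_{s=m} L = r` and `L^*(m) ∈ ℚ^* D` iff
   `(log Y)^r exp W_γ(Y) → e^{rΛ_γ} x D` for some `x ∈ ℚ^*`.

4. For `0 ≤ γ < π/2` and `r ∈ ℤ`: `V_γ(Y) = -r log log Y + O(1)` iff `ord_{s=m} L = r` and `L` has neither zeros
   nor poles on the real half line `(m, ∞)`.

Proof.  `Pool.Agent.V11290.UL` (central points; `MP_b8021b_nt.NumericalCriterion` has 2 and 4 for them,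
`MP_dfae13_nt.NumericalForm` has 1 for abelian varieties over `ℚ`), extended to all real points in
`Pool.Agent.V11288.LZ`.
-/

set_option autoImplicit false

namespace Pool.Agent.Results.MP_29b22a_nt.LeadingTermsByPoints

open Filter Topology Set NumberField IsDedekindDomain

variable {K : Type} [Field K] [NumberField K] {n N : ℕ}

/-- The norm `q_v`. -/
noncomputable def nrm (v : HeightOneSpectrum (𝓞 K)) : ℕ := Ideal.absNorm v.asIdeal

/-- The set `X` of homogeneous polynomials over `𝓞_K` in `n` variables gives a projective variety over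
`K`.  For a field `κ` with `q` elements and a homomorphism `𝓞_K → κ` this is `(q - 1)` times the number
of the points of `X` with coordinates in `κ`: the number of the nonzero solutions of the equations. -/
noncomputable def cone (X : Set (MvPolynomial (Fin n) (𝓞 K))) {κ : Type} [Field κ]
    (φ : 𝓞 K →+* κ) : ℕ :=
  Nat.card {u : Fin n → κ // u ≠ 0 ∧ ∀ f ∈ X, MvPolynomial.eval₂ φ u f = 0}

/-- `α_1, …, α_N` are the eigenvalues of the geometric Frobenius at the prime `v` of `K` on `H^i(X)`,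
for a variety `X` of dimension `d`: there are finite multisets `β_k` of complex numbers of absolute
value `q_v^{k/2}`, `k = 0, …, 2d`, with `β_i = {α_1, …, α_N}`, such that for every finite extension
`κ` of the residue field of `v`, of degree `e`, the number of the points of `X` with coordinates in
`κ` is `∑ (-1)^k ∑_{z ∈ β_k} z^e`.  By the theorem of Deligne such `β_k` exist at almost all primes
if `X` is smooth, with `N` the `i`-th Betti number of `X`; for `k ≤ 2d` they are unique. -/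
def IsFrobenius (X : Set (MvPolynomial (Fin n) (𝓞 K))) (d i : ℕ)
    (v : HeightOneSpectrum (𝓞 K)) (α : Fin N → ℂ) : Prop :=
  ∃ β : ℕ → Multiset ℂ, β i = Finset.univ.val.map α ∧
    (∀ k, ∀ z ∈ β k, ‖z‖ = (nrm v : ℝ) ^ ((k : ℝ) / 2)) ∧
    ∀ (κ : Type) [Field κ] [Finite κ] (φ : 𝓞 K →+* κ) (e : ℕ), RingHom.ker φ = v.asIdeal →
      Nat.card κ = nrm v ^ e →
      (cone X φ : ℂ) = ((nrm v : ℂ) ^ e - 1) *
          ∑ k ∈ Finset.range (2 * d + 1), (-1 : ℂ) ^ k * ((β k).map (fun z => z ^ e)).sum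

variable {S : Set (HeightOneSpectrum (𝓞 K))}

/-- The Euler factor `∏_j (1 - α_{v,j} q_v^{-s})⁻¹`. -/
noncomputable def factor (α : S → Fin N → ℂ) (v : S) (s : ℂ) : ℂ :=
  ∏ j, (1 - α v j * (nrm v.1 : ℂ) ^ (-s))⁻¹

/-- `L` is the Euler product for `Re s > i/2 + 1` and meromorphic at the points of the real interval
`[m, i/2 + 1]`. -/
structure IsLFunction (i : ℕ) (α : S → Fin N → ℂ) (m : ℤ) (L : ℂ → ℂ) : Prop where
  mero : ∀ x ∈ Icc (m : ℝ) ((i : ℝ) / 2 + 1), MeromorphicAt L (x : ℂ)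
  prod : ∀ s : ℂ, (i : ℝ) / 2 + 1 < s.re → L s = ∏' v : S, factor α v s

/-- The term of `W_γ(Y)` at `(v, k)`. -/
noncomputable def term (α : S → Fin N → ℂ) (m : ℤ) (γ Y : ℝ) (v : S) (k : ℕ) : ℂ :=
  (∑ j, α v j ^ k) / (k * (nrm v.1 : ℂ) ^ (k * m)) *
    (Complex.exp ((γ * (k * Real.log (nrm v.1) / Real.log Y) : ℝ) * Complex.I) /
      (Real.Gamma (1 + k * Real.log (nrm v.1) / Real.log Y) : ℂ))

/-- `W_γ(Y)`, the sum over `v ∈ S` and `k ≥ 1` (here `k = x.2 + 1`). -/
noncomputable def W (α : S → Fin N → ℂ) (m : ℤ) (γ Y : ℝ) : ℂ :=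
  ∑' x : S × ℕ, term α m γ Y x.1 (x.2 + 1)

/-- `V_γ(Y)`: the sum of the real parts of the terms (the power sums `∑_j α_{v,j}^k` are real numbers, so
these are the terms with `cos(γu)` instead of `e^{iγu}`). -/
noncomputable def V (α : S → Fin N → ℂ) (m : ℤ) (γ Y : ℝ) : ℝ :=
  ∑' x : S × ℕ, (term α m γ Y x.1 (x.2 + 1)).re

/-- `Λ_γ = ∫_0^∞ (e^{-t} - e^{iγt} / Γ(1 + t)) dt / t`. -/
noncomputable def Lam (γ : ℝ) : ℂ := ∫ t in Ioi (0 : ℝ),
  (Complex.exp (-(t : ℂ)) - Complex.exp ((γ * t : ℝ) * Complex.I) * ((Real.Gamma (1 + t))⁻¹ : ℝ)) / t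

/-- The order of `L` at the real point `x` is `r`. -/
def OrderAt (L : ℂ → ℂ) (x : ℝ) (r : ℤ) : Prop := meromorphicOrderAt L (x : ℂ) = r

/-- The order at `m` is `r` and the leading coefficient is `B`: `L(s)/(s - m)^r → B ≠ 0`. -/
def LeadingAt (L : ℂ → ℂ) (m r : ℤ) (B : ℂ) : Prop :=
  B ≠ 0 ∧ Tendsto (fun s : ℂ => L s / (s - m) ^ r) (𝓝[≠] (m : ℂ)) (𝓝 B)

/-- The number of the zeros minus the number of the poles of `L` on the real half line `(m, ∞)`. -/
noncomputable def excess (L : ℂ → ℂ) (m : ℤ) : ℤ :=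
  ∑ᶠ x ∈ Ioi (m : ℝ), (meromorphicOrderAt L (x : ℂ)).untop₀

/-- `V_γ(Y) = -r log log Y + O(1)` for `Y → ∞`. -/
def BoundedLaw (α : S → Fin N → ℂ) (m : ℤ) (γ : ℝ) (r : ℤ) : Prop :=
  ∃ C Y₀ : ℝ, ∀ Y ≥ Y₀, |V α m γ Y + r * Real.log (Real.log Y)| ≤ C

open Pool.Agent.V11288.LZ Pool.Agent.V11288

theorem term_eq (α : S → Fin N → ℂ) (m : ℤ) (γ Y : ℝ) (x : S × ℕ) :
    tm (fun v : S => (Ideal.absNorm v.1.asIdeal : ℝ)) (fun v => Matrix.diagonal (α v)) m γ Y x =
      term α m γ Y x.1 (x.2 + 1) := by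
  unfold tm term wt
  rw [trace_diagonal_pow, Real.rpow_intCast]
  have h0 : ((((Ideal.absNorm x.1.1.asIdeal : ℕ) : ℝ) ^ m : ℝ) : ℂ) ^ (x.2 + 1) =
      (nrm x.1.1 : ℂ) ^ (((x.2 + 1 : ℕ) : ℤ) * m) := by
    push_cast
    rw [mul_comm, zpow_mul]
    norm_cast
  rw [h0]
  rfl

theorem W_eq (α : S → Fin N → ℂ) (m : ℤ) (γ Y : ℝ) :
    tot (fun v : S => (Ideal.absNorm v.1.asIdeal : ℝ)) (fun v => Matrix.diagonal (α v)) m γ Y =
      W α m γ Y :=
  tsum_congr fun x => term_eq α m γ Y x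

/-- **Leading terms at all integers from point counts.** -/
theorem result (X : Set (MvPolynomial (Fin n) (𝓞 K))) (d i : ℕ) (hi : i ≤ 2 * d)
    (α : S → Fin N → ℂ) (h : ∀ v, IsFrobenius X d i v.1 (α v)) (m : ℤ) (L : ℂ → ℂ)
    (hL : IsLFunction i α m L) :
    (∀ γ : ℝ, Real.pi / 2 < γ → ∃ (r : ℤ) (l : ℝ), OrderAt L m r ∧ LeadingAt L m r l ∧
      (fun Y : ℝ => W α m γ Y - (Real.log |l| - Complex.I * Real.pi * excess L m -
        r * (Real.log (Real.log Y) - Lam γ))) =O[atTop] (fun Y : ℝ => 1 / Real.log Y)) ∧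
    (∀ (γ : ℝ) (r : ℤ), Real.pi / 2 < γ → (OrderAt L m r ↔ BoundedLaw α m γ r)) ∧
    (∀ (γ : ℝ) (r : ℤ) (D : ℂ), Real.pi / 2 < γ → D ≠ 0 →
      ((∃ x : ℚ, x ≠ 0 ∧ LeadingAt L m r (x * D)) ↔
        ∃ x : ℚ, x ≠ 0 ∧ Tendsto (fun Y : ℝ => (Real.log Y : ℂ) ^ r * Complex.exp (W α m γ Y)) atTop
          (𝓝 (Complex.exp (r * Lam γ) * (x * D))))) ∧
    ∀ (γ : ℝ) (r : ℤ), 0 ≤ γ → γ < Real.pi / 2 →
      (BoundedLaw α m γ r ↔ OrderAt L m r ∧ ∀ x : ℝ, (m : ℝ) < x → OrderAt L x 0) := by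
  obtain ⟨hb, hr⟩ : HS.EX.Pure i α := HS.EX.pure_of_frobenius hi h
  have E : Eul 1 ((i : ℝ) / 2) (fun v : S => (Ideal.absNorm v.1.asIdeal : ℝ))
      (fun v => Matrix.diagonal (α v)) := eul_alpha hb
  have hreal : ∀ (v : S) (k : ℕ), ((Matrix.diagonal (α v)) ^ k).trace.im = 0 := by
    intro v k
    rw [trace_diagonal_pow]
    exact hr v k
  have hmero : ∀ x ∈ Icc (m : ℝ) (1 + (i : ℝ) / 2), MeromorphicAt L (x : ℂ) :=
    fun x hx => hL.mero x ⟨hx.1, by linarith [hx.2]⟩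
  have hprod : ∀ s : ℂ, 1 + (i : ℝ) / 2 < s.re → L s =
      ∏' v : S, ((1 - (((Ideal.absNorm v.1.asIdeal : ℝ) : ℂ)) ^ (-s) • Matrix.diagonal (α v)).det)⁻¹ := by
    intro s hs
    rw [hL.prod s (by linarith)]
    refine tprod_congr fun v => ?_
    rw [det_diagonal_sub, ← Finset.prod_inv_distrib]
    rfl
  have hcast : ((m : ℝ) : ℂ) = (m : ℂ) := by push_cast; rfl
  obtain ⟨h1, h2, h3, -⟩ := E.real hreal (m : ℝ) hmero hprod
  have hV : ∀ γ : ℝ, vot (fun v : S => (Ideal.absNorm v.1.asIdeal : ℝ))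
      (fun v => Matrix.diagonal (α v)) m γ = V α m γ := by
    intro γ
    funext Y
    unfold vot V
    refine tsum_congr fun x => ?_
    rw [rtm_eq hreal, term_eq]
  refine ⟨fun γ hγ => ?_, fun γ r hγ => ?_, fun γ r D hγ hD => ?_, fun γ r hγ hγ2 => ?_⟩
  · obtain ⟨r, l, h5, h6, h7, h8⟩ := h1 γ hγ
    rw [hcast] at h7
    refine ⟨r, l, h6, ⟨by exact_mod_cast h5, h7⟩, ?_⟩
    refine h8.congr_left fun Y => ?_
    rw [W_eq]
    show _ = W α m γ Y - (Real.log |l| - Complex.I * Real.pi * excessR L m -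
        r * (Real.log (Real.log Y) - Pool.Agent.W187.UR.Lam γ))
    ring
  · have h5 := h2 γ r hγ
    rw [hV] at h5
    exact h5.symm
  · have key : ∀ B : ℂ, B ≠ 0 → (LeadingAt L m r B ↔
        Tendsto (fun Y : ℝ => (Real.log Y : ℂ) ^ r * Complex.exp (W α m γ Y)) atTop
          (𝓝 (Complex.exp (r * Lam γ) * B))) := by
      intro B hB
      have h5 := (E.final' (m : ℝ) hmero hprod hγ).2.2.1 r B hB
      rw [hcast] at h5
      simp only [W_eq] at h5
      unfold LeadingAt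
      constructor
      · exact fun h6 => h5.1 h6.2
      · exact fun h6 => ⟨hB, h5.2 h6⟩
    refine exists_congr fun x => and_congr_right fun hx => key _ ?_
    exact mul_ne_zero (by exact_mod_cast hx) hD
  · have h5 := h3 γ r hγ hγ2
    rw [hV] at h5
    exact h5

end Pool.Agent.Results.MP_29b22a_nt.LeadingTermsByPoints
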