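import Pool.Agent.V11291.T49.Two
import Pool.Agent.Results.MP_9c97e9_nt.FormulaModTwoExactProportion

/-!
# Beilinson's conjecture at the centre for `H¹` of products of twists of `X_0(14)`, in every dimension

`E_N` is the quadratic twist by `N` of the modular curve `X_0(14)`, an elliptic curve over `ℚ` without
complex multiplication. For a finite set `T` of twists let `X_T = ∏_{N ∈ T} E_N`, an abelian variety over
`ℚ` of dimension `#T`. For `i = m = 1` the objects of the problem are, for `X = X_T`: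

* `V¹ = CH¹(X)⁰ ⊗ ℚ = ⊕ E_N(ℚ) ⊗ ℚ`, which is zero if and only if `X_T(ℚ)` is finite;
* `L(X, s) = ∏ L(E_N, s)`, and `det Π = ∏ Ω(E_N)` up to a rational factor, where `Ω` is the real period.

So if `X_T(ℚ)` is finite, the assertions (i) to (iv) for `X_T` and `i = 1` say that `L(X_T, 1)` is not zero
and that it is a rational multiple of `∏ Ω(E_N)`. This is `Beilinson T` below.

The base class consists of the squarefree `D > 0` which are squares modulo `7` and all of whose prime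
factors are `1` modulo `8` and split in `ℚ(√-7)`, or `5` modulo `8` and inert in `ℚ(√-7)`. Let `S` be any
finite subset of the class `Adm` and `S_D = {squarefree part of M D : M ∈ S}`, a set with `#S` elements.

Theorem: for a proportion of exactly `c ^ #S` of the `D` of the base class, `c = 0.4194...`, all the groups
`E_N(ℚ)`, `N ∈ S_D`, are finite, all the groups `Ш(E_N)[2^∞]` are zero, Beilinson's conjecture holds for
`H¹` of the abelian variety of dimension `#S` with index set `S_D`, and the rational factor is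
`∏ c(E_N) / #E_N(ℚ)_tors²` times a 2-adic unit.
-/

set_option autoImplicit false

open Filter Topology WeierstrassCurve

namespace Pool.Agent.Results.MP_29b22a_nt.ProductsOfTwists

open scoped Classical

open Pool.Agent.TH841.SH.D (Sha)

/-- The quadratic twist `E_N` of `X_0(14)` (`N = 1` modulo `4`), with its global minimal equation
`y² + x y + y = x³ + ((N - 1)/4) x² + ((9 N² - 1)/2) x - (23 N³ + 1)/4`. It is isomorphic to
`Y² = X (X² + 13 N X + 128 N²)` by `X = 4 (x - N)`, `Y = 4 (2 y + x + 1)`. -/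
def E (N : ℤ) : WeierstrassCurve ℤ :=
  ⟨1, (N - 1) / 4, 1, (9 * N ^ 2 - 1) / 2, -((23 * N ^ 3 + 1) / 4)⟩

/-- The curve given by the equation of `W` over the ring `R`. -/
abbrev base (W : WeierstrassCurve ℤ) (R : Type) [CommRing R] : WeierstrassCurve R :=
  W.map (Int.castRingHom R)

/-- The number of the affine points `(x, y)` over the ring `R`. -/
noncomputable def pts (W : WeierstrassCurve ℤ) (R : Type) [CommRing R] : ℕ :=
  Nat.card {P : R × R // (base W R).toAffine.Equation P.1 P.2}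

/-- `a_p = p + 1 - #W(𝔽_p)`, the number of the points of the reduction (a singular point and the
point at infinity included). -/
noncomputable def a (W : WeierstrassCurve ℤ) (p : ℕ) : ℤ := p - pts W (ZMod p)

/-- The Euler factor `(1 - a_p p^(-s) + p^(1 - 2 s))⁻¹` if `p` does not divide the discriminant, and
`(1 - a_p p^(-s))⁻¹` otherwise. -/
noncomputable def factor (W : WeierstrassCurve ℤ) (p : ℕ) (s : ℂ) : ℂ :=
  (1 - (a W p : ℂ) * (p : ℂ) ^ (-s) + (if ((p : ℕ) : ℤ) ∣ W.Δ then 0 else (p : ℂ) ^ (1 - 2 * s)))⁻¹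

/-- `L` is the `L`-function of `H¹` of `X_T = ∏_{N ∈ T} E_N`: it is entire and equal to the Euler product
whose factors are the products of those of the curves `E_N`. -/
def IsL (T : Finset ℤ) (L : ℂ → ℂ) : Prop :=
  Differentiable ℂ L ∧ ∀ s : ℂ, 3 / 2 < s.re →
    HasProd (fun p : Nat.Primes => ∏ N ∈ T, factor (E N) p s) (L s)

/-- `4 x³ + b₂ x² + 2 b₄ x + b₆ = (2 y + a₁ x + a₃)²` as a function of `x`. -/
noncomputable def psi (W : WeierstrassCurve ℤ) (x : ℝ) : ℝ :=
  4 * x ^ 3 + W.b₂ * x ^ 2 + 2 * W.b₄ * x + W.b₆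

/-- The real period `∫_{W(ℝ)} |ω|` of `ω = dx / (2 y + a₁ x + a₃)`: over every `x` with `psi x > 0`
there are two real points. -/
noncomputable def Omega (W : WeierstrassCurve ℤ) : ℝ :=
  ∫ x in {x : ℝ | 0 < psi W x}, 2 / Real.sqrt (psi W x)

/-- The group of the rational points of `X_T = ∏_{N ∈ T} E_N`. -/
abbrev Points (T : Finset ℤ) : Type := (N : T) → (base (E N) ℚ).toAffine.Point

/-- Assertions (i) to (iv) of Beilinson's conjecture for `X_T = ∏_{N ∈ T} E_N` and `i = m = 1`, with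
`V¹ = 0`: the group `X_T(ℚ)` is finite, there is an entire `L`-function with `L(1) ≠ 0`, and `L(1)` is a
rational multiple of the product of the (positive) real periods. -/
def Beilinson (T : Finset ℤ) : Prop :=
  Finite (Points T) ∧ (∀ N ∈ T, 0 < Omega (E N)) ∧
    ∃ L : ℂ → ℂ, IsL T L ∧ L 1 ≠ 0 ∧
      ∃ q : ℚ, q ≠ 0 ∧ L 1 = (((q : ℝ) * ∏ N ∈ T, Omega (E N) : ℝ) : ℂ)

/-! ### The Tate-Shafarevich groups and the 2-adic valuation of the rational factor -/

/-- `(x, y)` is integral and reduces to a singular point modulo `p`: both partial derivatives of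
`y² + a₁ x y + a₃ y - x³ - a₂ x² - a₄ x - a₆` vanish modulo `p`. -/
def SingRed (W : WeierstrassCurve ℤ) (p : ℕ) [Fact p.Prime] (x y : ℚ_[p]) : Prop :=
  ‖x‖ ≤ 1 ∧ ‖y‖ ≤ 1 ∧ ‖W.a₁ * y - (3 * x ^ 2 + 2 * W.a₂ * x + W.a₄)‖ < 1 ∧
    ‖2 * y + W.a₁ * x + W.a₃‖ < 1

/-- `W⁰(ℚ_p)`: the subgroup of the points with non-singular reduction. -/
noncomputable def W0 (W : WeierstrassCurve ℤ) (p : ℕ) [Fact p.Prime] :
    AddSubgroup (base W ℚ_[p]).toAffine.Point :=
  AddSubgroup.closure {P | ∀ (x y : ℚ_[p]) (h), P = Affine.Point.some x y h → ¬ SingRed W p x y}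

/-- The product of the Tamagawa numbers `c_p = [W(ℚ_p) : W⁰(ℚ_p)]` at the primes that divide the
discriminant. -/
noncomputable def Tam (W : WeierstrassCurve ℤ) : ℕ :=
  ∏ p ∈ W.Δ.natAbs.primeFactors, if h : p.Prime then (haveI := Fact.mk h; (W0 W p).index) else 1

/-- The number of the torsion points over `ℚ`. -/
noncomputable def tors (W : WeierstrassCurve ℤ) : ℕ :=
  Nat.card (AddCommGroup.torsion (base W ℚ).toAffine.Point)

/-- the group `W(ℚ)` is finite and `Ш(W)` has no element of order two -/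
def RankZeroShaTwo (W : WeierstrassCurve ℤ) : Prop :=
  Finite (base W ℚ).toAffine.Point ∧ ∀ x : Sha (base W ℚ), 2 • x = 0 → x = 0

/-- For each `N ∈ T` the group `Ш(E_N)[2^∞]` is zero; and `L(X_T, 1)` is the product of
`∏ Ω c / #E_N(ℚ)_tors²` (`c` the product of the Tamagawa numbers) and of a rational number that is a
2-adic unit. -/
def TwoAdic (T : Finset ℤ) : Prop :=
  (∀ N ∈ T, ∀ (n : ℕ) (y : Sha (base (E N) ℚ)), 2 ^ n • y = 0 → y = 0) ∧
    ∃ L : ℂ → ℂ, IsL T L ∧ ∃ u : ℚ, u ≠ 0 ∧ padicValRat 2 u = 0 ∧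
      L 1 = (((u : ℝ) * ∏ N ∈ T, Omega (E N) * Tam (E N) / (tors (E N) : ℝ) ^ 2 : ℝ) : ℂ)

/-- All the `E_N(ℚ)`, `N ∈ T`, are finite and the `Ш(E_N)` have no element of order two, Beilinson's
conjecture holds for `H¹(X_T)`, and the rational factor is known up to a 2-adic unit. -/
def Good (T : Finset ℤ) : Prop :=
  (∀ N ∈ T, RankZeroShaTwo (E N)) ∧ Beilinson T ∧ TwoAdic T

/-! ### The classes of the twists -/

/-- primes congruent to `1` modulo `8` that split in `ℚ(√-7)` -/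
def Split (p : ℕ) : Prop := p.Prime ∧ p % 8 = 1 ∧ (p % 7 = 1 ∨ p % 7 = 2 ∨ p % 7 = 4)

/-- primes inert in `ℚ(√-7)` and in `ℚ(√2)` -/
def Inert (q : ℕ) : Prop :=
  q.Prime ∧ (q % 8 = 3 ∨ q % 8 = 5) ∧ (q % 7 = 3 ∨ q % 7 = 5 ∨ q % 7 = 6)

/-- primes congruent to `5` modulo `8` that are inert in `ℚ(√-7)` -/
def Inert5 (q : ℕ) : Prop := q.Prime ∧ q % 8 = 5 ∧ (q % 7 = 3 ∨ q % 7 = 5 ∨ q % 7 = 6)

/-- the base class: squarefree `D > 0` which are squares modulo `7` and all of whose prime factors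
are in `Split` or in `Inert5` -/
def Base (D : ℕ) : Prop := Squarefree D ∧ (D % 7 = 1 ∨ D % 7 = 2 ∨ D % 7 = 4) ∧
  ∀ p : ℕ, p.Prime → p ∣ D → Split p ∨ Inert5 p

/-- the class of all the twists (of both signs): squarefree, `1` modulo `4`, a square modulo `7`, all
prime factors different from `3` and in `Split` or in `Inert` -/
def Adm (N : ℤ) : Prop := Squarefree N ∧ N % 4 = 1 ∧ (N % 7 = 1 ∨ N % 7 = 2 ∨ N % 7 = 4) ∧
  ∀ p : ℕ, p.Prime → (p : ℤ) ∣ N → p ≠ 3 ∧ (Split p ∨ Inert p)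

/-- for squarefree `M` and `D`, the squarefree part of `M D` -/
def sqf (M : ℤ) (D : ℕ) : ℤ := M * D / (Int.gcd M D : ℤ) ^ 2

/-- `S_D`: the squarefree parts of the `M D`, `M ∈ S` -/
noncomputable def twists (S : Finset ℤ) (D : ℕ) : Finset ℤ := S.image fun M => sqf M D

/-- the number of the `D ≤ X` of the base class with `Q D` -/
noncomputable def count (Q : ℕ → Prop) (X : ℕ) : ℕ :=
  ((Finset.Icc 1 X).filter fun D => Base D ∧ Q D).card

/-- `c = ∏_{i ≥ 0} (1 - 2^{-(2 i + 1)})` -/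
noncomputable def cc : ℝ := ∏' i : ℕ, (1 - (1 / 2 : ℝ) ^ (2 * i + 1))

/-! ### Proofs -/

section proof

open Pool.Agent.Results.MP_9c97e9_nt (FormulaModTwoExactProportion.result)

/-- what is needed for one curve -/
def Single (W : WeierstrassCurve ℤ) : Prop :=
  RankZeroShaTwo W ∧ (∀ (n : ℕ) (y : Sha (base W ℚ)), 2 ^ n • y = 0 → y = 0) ∧ 0 < Omega W ∧
    0 < Tam W ∧ 0 < tors W ∧ ∃ L : ℂ → ℂ, (Differentiable ℂ L ∧ ∀ s : ℂ, 3 / 2 < s.re →
      HasProd (fun p : Nat.Primes => factor W p s) (L s)) ∧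
      ∃ x : ℚ, x ≠ 0 ∧ padicValRat 2 x = 0 ∧
        L 1 = (((x : ℝ) * Omega W * Tam W / (tors W : ℝ) ^ 2 : ℝ) : ℂ)

theorem single_of {N : ℤ} (hN : Adm N) (h1 : N ≠ 1) (hz : RankZeroShaTwo (E N)) :
    Single (E N) := by
  obtain ⟨h2, -⟩ := FormulaModTwoExactProportion.result
  obtain ⟨-, -, h3⟩ := h2 N hN h1
  obtain ⟨h4, h5, h6, x, hx, hx0, hxv⟩ := h3 hz
  obtain ⟨-, hO, hT, ht, ⟨L, hL⟩, hval⟩ := hx
  exact ⟨hz, h5, hO, hT, ht, L, ⟨hL.1, fun s hs => hL.2 s hs⟩, x, hx0, hxv, hval L hL⟩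

theorem good_of {T : Finset ℤ} (h : ∀ N ∈ T, Single (E N)) : Good T := by
  have h' : ∀ N : T, Single (E N) := fun N => h N.1 N.2
  choose hz hs hO hT ht L hL x hx0 hxv hval using h'
  have hprod : ∀ f : ℤ → ℂ, ∏ N ∈ T, f N = ∏ N : T, f N := fun f =>
    (Finset.prod_coe_sort T f).symm
  have hprodR : ∀ f : ℤ → ℝ, ∏ N ∈ T, f N = ∏ N : T, f N := fun f =>
    (Finset.prod_coe_sort T f).symm
  have hLT : IsL T (fun s => ∏ N : T, L N s) := by
    refine ⟨?_, fun s hs' => ?_⟩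
    · exact Differentiable.fun_finsetProd fun N _ => (hL N).1
    · have h1 : HasProd (fun p : Nat.Primes => ∏ N : T, factor (E N) p s) (∏ N : T, L N s) :=
        hasProd_prod fun N _ => (hL N).2 s hs'
      have e : (fun p : Nat.Primes => ∏ N ∈ T, factor (E N) p s) =
          fun p : Nat.Primes => ∏ N : T, factor (E N) p s := funext fun p => hprod _
      rw [e]
      exact h1
  have hv : ∏ N : T, L N 1 = (((((∏ N : T, x N : ℚ) : ℚ) : ℝ) *
      ∏ N ∈ T, Omega (E N) * Tam (E N) / (tors (E N) : ℝ) ^ 2 : ℝ) : ℂ) := by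
    rw [hprodR]
    push_cast
    rw [← Finset.prod_mul_distrib]
    refine Finset.prod_congr rfl fun N _ => ?_
    rw [hval N]
    push_cast
    ring
  have hx : (∏ N : T, x N) ≠ 0 := Finset.prod_ne_zero_iff.2 fun N _ => hx0 N
  have hxv' : padicValRat 2 (∏ N : T, x N) = 0 := by
    have : Fact (Nat.Prime 2) := ⟨Nat.prime_two⟩
    have key : ∀ s : Finset T, padicValRat 2 (∏ N ∈ s, x N) = 0 := by
      intro s
      induction s using Finset.induction_on with
      | empty => simp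
      | insert N s hN ih =>
        rw [Finset.prod_insert hN, padicValRat.mul (hx0 N)
          (Finset.prod_ne_zero_iff.2 fun N _ => hx0 N), ih, hxv N, add_zero]
    exact key Finset.univ
  have hfin : Finite (Points T) := by
    have : ∀ N : T, Finite (base (E N) ℚ).toAffine.Point := fun N => (hz N).1
    exact Pi.finite
  refine ⟨fun N hN => hz ⟨N, hN⟩, ⟨hfin, fun N hN => hO ⟨N, hN⟩, _, hLT, ?_,
    (∏ N : T, x N) * ∏ N : T, ((Tam (E N) : ℚ) / (tors (E N) : ℚ) ^ 2), ?_, ?_⟩,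
    fun N hN => hs ⟨N, hN⟩, _, hLT, ∏ N : T, x N, hx, hxv', hv⟩
  · show ∏ N : T, L N 1 ≠ 0
    rw [Finset.prod_ne_zero_iff]
    intro N _
    rw [hval N, Complex.ofReal_ne_zero]
    have h1 : (x N : ℝ) ≠ 0 := by exact_mod_cast hx0 N
    have h2 : (Tam (E N) : ℝ) ≠ 0 := by exact_mod_cast (hT N).ne'
    have h3 : (tors (E N) : ℝ) ≠ 0 := by exact_mod_cast (ht N).ne'
    exact div_ne_zero (mul_ne_zero (mul_ne_zero h1 (hO N).ne') h2) (pow_ne_zero 2 h3)
  · refine mul_ne_zero hx (Finset.prod_ne_zero_iff.2 fun N _ => ?_)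
    have h2 : (Tam (E N) : ℚ) ≠ 0 := by exact_mod_cast (hT N).ne'
    have h3 : (tors (E N) : ℚ) ≠ 0 := by exact_mod_cast (ht N).ne'
    exact div_ne_zero h2 (pow_ne_zero 2 h3)
  · show ∏ N : T, L N 1 = _
    rw [hv]
    congr 1
    rw [hprodR, hprodR]
    push_cast
    simp only [← Finset.prod_mul_distrib]
    refine Finset.prod_congr rfl fun N _ => ?_
    ring

theorem sqf_eq (M : ℤ) (D : ℕ) : sqf M D = Pool.Agent.V11291.T49.tw M D := rfl

theorem adm_twists {S : Finset ℤ} (hS : ∀ M ∈ S, Adm M) {D : ℕ} (hD : Base D) :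
    ∀ N ∈ twists S D, Adm N := by
  intro N hN
  obtain ⟨M, hM, rfl⟩ := Finset.mem_image.1 hN
  exact Pool.Agent.V11291.T49.tw14 (hS M hM) hD

theorem card_twists {S : Finset ℤ} (hS : ∀ M ∈ S, Adm M) {D : ℕ} (hD : Base D) :
    (twists S D).card = S.card := by
  refine Finset.card_image_of_injOn ?_
  intro M hM M' hM' h
  have hD0 : (D : ℤ) ≠ 0 := by exact_mod_cast hD.1.ne_zero
  obtain ⟨h1, h2, h3⟩ := Pool.Agent.V11291.T49.tw_spec (hS M hM).1 hD.1
  obtain ⟨h1', h2', h3'⟩ := Pool.Agent.V11291.T49.tw_spec (hS M' hM').1 hD.1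
  have h4 : Pool.Agent.V11291.T49.tw M D = Pool.Agent.V11291.T49.tw M' D := h
  rw [← h4] at h2'
  obtain ⟨g, hg⟩ : ∃ g : ℤ, g = (Int.gcd M D : ℤ) := ⟨_, rfl⟩
  obtain ⟨g', hg'⟩ : ∃ g : ℤ, g = (Int.gcd M' D : ℤ) := ⟨_, rfl⟩
  rw [← hg] at h2 h3
  rw [← hg'] at h2' h3'
  -- `M * g' ^ 2 = M' * g ^ 2`
  have h5 : M * g' ^ 2 = M' * g ^ 2 := by
    apply mul_right_cancel₀ hD0
    linear_combination g' ^ 2 * h2 - g ^ 2 * h2'
  exact Pool.Agent.Y687.JQ.sqf_unique (hS M hM).1 (hS M' hM').1 h3' h3 h5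

theorem joint {S : Finset ℤ} (hS : ∀ M ∈ S, Adm M) :
    Tendsto (fun X : ℕ => (count (fun D => Good (twists S D)) X : ℝ) /
      (count (fun _ => True) X : ℝ)) atTop (𝓝 (cc ^ S.card)) := by
  have key : ∀ A : WeierstrassCurve ℤ → Prop, (∀ N : ℤ, Adm N → N ≠ 1 →
      (A (E N) ↔ RankZeroShaTwo (E N))) → (A (E 1) → RankZeroShaTwo (E 1)) →
      Tendsto (fun X : ℕ => (count (fun D => ∀ M ∈ S, A (E (sqf M D))) X : ℝ) /
        (count (fun _ => True) X : ℝ)) atTop (𝓝 (cc ^ S.card)) := by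
    intro A hA hA'
    have hrz : ∀ N : ℤ, RankZeroShaTwo (E N) ↔
        Pool.Agent.V11291.T49.RZ (Pool.Agent.Y700.WM N) := by
      intro N
      unfold RankZeroShaTwo Pool.Agent.V11291.T49.RZ
      refine and_congr Iff.rfl (forall_congr' fun x => ?_)
      rw [two_nsmul]
      rfl
    have h := Pool.Agent.V11291.T49.joint2 (S := S) (T := ∅) hS (by simp) A
      Pool.Agent.V11291.T49.RZ (fun N hN h1 => (hA N hN h1).trans (hrz N))
      (fun h => (hrz 1).1 (hA' h)) fun L hL => Iff.rfl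
    rw [Finset.card_empty, Nat.add_zero] at h
    refine h.congr fun X => ?_
    have e1 : ((Finset.Icc 1 X).filter fun D : ℕ => Pool.Agent.V11291.E49.BaseN D ∧
        (∀ M ∈ S, A (Pool.Agent.Y700.WM (Pool.Agent.V11291.T49.tw M D))) ∧
        ∀ L ∈ (∅ : Finset ℤ), Pool.Agent.V11291.T49.RZ
          (Pool.Agent.V11291.T49.W49 (Pool.Agent.V11291.T49.tw L D))).card =
        count (fun D => ∀ M ∈ S, A (E (sqf M D))) X :=
      Pool.Agent.V11291.T49.card_flt _ _ _ _ _ fun D =>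
        ⟨fun h => ⟨h.1, h.2.1⟩, fun h => ⟨h.1, h.2, by simp⟩⟩
    have e2 : ((Finset.Icc 1 X).filter Pool.Agent.V11291.E49.BaseN).card =
        count (fun _ => True) X :=
      Pool.Agent.V11291.T49.card_flt _ _ _ _ _ fun D =>
        ⟨fun h => ⟨h, trivial⟩, fun h => h.1⟩
    rw [e1, e2]
  have h1 := key Single (fun N hN h1 => ⟨fun h => h.1, fun h => single_of hN h1 h⟩) fun h => h.1
  have h2 := key RankZeroShaTwo (fun N hN h1 => Iff.rfl) fun h => h
  have hmono : ∀ (Q R : ℕ → Prop), (∀ D, Base D → Q D → R D) → ∀ X : ℕ,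
      (count Q X : ℝ) / (count (fun _ => True) X : ℝ) ≤
        (count R X : ℝ) / (count (fun _ => True) X : ℝ) := by
    intro Q R h X
    refine div_le_div_of_nonneg_right ?_ (Nat.cast_nonneg _)
    exact_mod_cast Finset.card_le_card fun D hD => by
      rw [Finset.mem_filter] at hD ⊢
      exact ⟨hD.1, hD.2.1, h D hD.2.1 hD.2.2⟩
  refine tendsto_of_tendsto_of_tendsto_of_le_of_le h1 h2
    (hmono _ _ fun D _ h => good_of fun N hN => ?_) (hmono _ _ fun D _ h M hM =>
      h.1 _ (Finset.mem_image_of_mem _ hM))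
  obtain ⟨M, hM, rfl⟩ := Finset.mem_image.1 hN
  exact h M hM

theorem infinite_adm : {N : ℤ | Adm N}.Infinite := by
  have h1 := Pool.Agent.V11291.E49.base_infinite
  have h2 : {D : ℕ | Base D}.Infinite := h1.mono fun D hD => hD.2
  have h3 := h2.image (f := fun D : ℕ => (D : ℤ)) (fun a _ b _ h => Int.natCast_inj.1 h)
  refine h3.mono ?_
  rintro _ ⟨D, hD, rfl⟩
  exact Pool.Agent.V11291.E49.BaseN.adm hD

end proof

/-- **Main theorem.**
(1) Let `T` be a finite subset of the class such that `1` is not in `T` and for all `N ∈ T` the group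
`E_N(ℚ)` is finite and `Ш(E_N)[2] = 0`. Then Beilinson's conjecture holds for `H¹` of `∏_{N ∈ T} E_N`, all
`Ш(E_N)[2^∞]` are zero, and the rational factor is `∏ c(E_N) / #E_N(ℚ)_tors²` up to a 2-adic unit.
(2) Let `S` be any finite subset of the class. For every `D` of the base class `S_D` is a subset of the
class with `#S` elements, and the proportion of the `D` of the base class for which all this holds for
`T = S_D` is exactly `c ^ #S`.
(3) There are such sets `S` with any number `r` of elements.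
(4) `0.4194 < c < 0.4195`, and the number of the `D ≤ X` of the base class is at least a positive
constant times `X (log X)^(-3/4)`. -/
theorem result :
    (∀ T : Finset ℤ, (∀ N ∈ T, Adm N ∧ N ≠ 1 ∧ RankZeroShaTwo (E N)) → Good T) ∧
    (∀ S : Finset ℤ, (∀ M ∈ S, Adm M) →
      (∀ D : ℕ, Base D → (twists S D).card = S.card ∧ ∀ N ∈ twists S D, Adm N) ∧
      Tendsto (fun X : ℕ => (count (fun D => Good (twists S D)) X : ℝ) /
        (count (fun _ => True) X : ℝ)) atTop (𝓝 (cc ^ S.card))) ∧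
    (∀ r : ℕ, ∃ S : Finset ℤ, S.card = r ∧ ∀ M ∈ S, Adm M) ∧
    (0.4194 < cc ∧ cc < 0.4195) ∧
    ∃ (b : ℝ) (X₀ : ℕ), 0 < b ∧ ∀ X : ℕ, X₀ ≤ X →
      b * X * (Real.log X) ^ (-(3 / 4) : ℝ) ≤ (count (fun _ => True) X : ℝ) := by
  refine ⟨fun T hT => good_of fun N hN => single_of (hT N hN).1 (hT N hN).2.1 (hT N hN).2.2,
    fun S hS => ⟨fun D hD => ⟨card_twists hS hD, adm_twists hS hD⟩, joint hS⟩, fun r => ?_,
    Pool.Agent.Y948.CQ.t_C2.2.2.2, ?_⟩
  · obtain ⟨S, hS, hr⟩ := infinite_adm.exists_subset_card_eq r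
    exact ⟨S, hr, fun M hM => hS hM⟩
  · obtain ⟨b, X₀, hb, h⟩ := Pool.Agent.V11291.T49.low2
    refine ⟨b, X₀, hb, fun X hX => (h X hX).trans (le_of_eq ?_)⟩
    exact congrArg (fun n : ℕ => (n : ℝ)) (Pool.Agent.V11291.T49.card_flt _ _ _ _ _ fun D =>
        ⟨fun h => ⟨h, trivial⟩, fun h => h.1⟩)

end Pool.Agent.Results.MP_29b22a_nt.ProductsOfTwists
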