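import Pool.Agent.V1157.KF.Height

/-!
# Height pairings are nondegenerate if their radicals have bounded dimension

Fix the dimension `n` and the codimension `m`. For height pairings between homologically trivial
cycles of codimensions `m` and `n + 1 - m` on the varieties of dimension `n`, which are linear and
satisfy the projection formulas, the following are equivalent:

1. the (left) radicals are zero on all varieties of dimension `n`;
2. the dimensions of the radicals are bounded, by a bound valid for all varieties of dimension `n`;
3. self-correspondences of degree zero act on the radicals through commuting operators;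
4. these operators satisfy some non-zero multilinear polynomial identity.

If `x` is in the radical on `S`, take a complete intersection `V` of dimension `n` in `S^N`; for its
projections `p_i` to `S` one has `p_i_* p_j^* x = 0`, `i ≠ j`, so that the `p_i^* x` are `N`
independent elements of the radical on `V` if `x ≠ 0`.
-/

open CategoryTheory AlgebraicGeometry

universe u v w

namespace Pool.Agent.Results.MP_29b22a_nt.RadicalsBounded

open Pool.Agent.H914 Pool.Agent.H914.VarClass Pool.Agent.H914.VarClass.Obj Pool.Agent.W492.BB
  Pool.Agent.TH133 Pool.Agent.V1157.KF

theorem result {k : Type u} [Field k] {𝒱 : VarClass k} {C : TheoryData.{u, v, 0} 𝒱 ℚ}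
    [IsChowProj C] {K : Type w} [Field K] {H : WeilTheoryData.{u, v, w} C K} [IsWeilProj H]
    (n m : ℕ) (h : Heights H n m)
    (hP : ∀ (S : 𝒱.Obj) (N : ℕ), S.dim = n → HasPower C n N S) :
    List.TFAE [Nondegenerate h, ∃ D, RadicalAtMost h D, RadicalCommuting h,
      ∃ (d : ℕ) (c : Equiv.Perm (Fin d) → ℚ), c ≠ 0 ∧ RadicalIdentity h d c] :=
  height_main h hP

end Pool.Agent.Results.MP_29b22a_nt.RadicalsBounded
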