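import Pool.Agent.Results.MP_29b22a_nt.ProductsOfTwists
import Pool.Agent.V1110.SpB

/-!
# Beilinson's conjecture at the centre for `H¹` of products of twists of `X_0(14)` by the terms of sparse
# sequences, in every dimension

`E_N` is the quadratic twist by `N` of the modular curve `X_0(14)`, and `X_T = ∏_{N ∈ T} E_N` for a finite
set `T`, an abelian variety over `ℚ` of dimension `#T`. For a finite set `S` of twists and for `D` in the
base class (squarefree `D > 0` which are squares modulo `7` and all of whose prime factors are `1`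
modulo `8` and split in `ℚ(√-7)`, or `5` modulo `8` and inert in `ℚ(√-7)`) let
`S_D = {squarefree part of M D : M ∈ S}`. The hand-in `ProductsOfTwists` of this problem gives: for a
proportion of exactly `c ^ #S` of ALL the `D` of the base class, `c = 0.4194...`, the group of the rational
points of `X_{S_D}` is finite, Beilinson's conjecture holds for `H¹` of this abelian variety of dimension
`#S`, the groups `Ш(E_N)[2^∞]`, `N ∈ S_D`, are zero, and the rational factor is known up to a 2-adic unit.

Here `D` runs through the members of the base class in the sequence `⌊α n ^ p⌋`, where `p > 1` is any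
real number: a sparse sequence, with about `X^{1/p}` terms up to `X`. There is one set `A₀` of real
numbers of Hausdorff dimension smaller than one such that for all real `α > 0` outside `A₀` and for all
the finite sets `S` at once the proportion is the same, and at least a constant times
`N (log N)^(-3/4)` of the `n ≤ N` give a member of the base class. In particular, the dimension `#S` is
arbitrary.

The proof: the law for all `D` and the metric mean value theorem for the sequences `⌊α n ^ p⌋`
(`Pool.Agent.Y854.GM.mean2`, with a power saving in the error; `V1110/SpA`).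
-/

set_option autoImplicit false

open Filter Topology

namespace Pool.Agent.Results.MP_29b22a_nt.SparseSequences

open Pool.Agent.Results.MP_29b22a_nt.ProductsOfTwists

/-- the number of the `1 ≤ n ≤ N` such that `⌊α n ^ p⌋` has the property `Q` -/
noncomputable def along (α p : ℝ) (Q : ℕ → Prop) (N : ℕ) : ℕ :=
  Nat.card {n : ℕ // (1 ≤ n ∧ n ≤ N) ∧ Q ⌊α * (n : ℝ) ^ p⌋₊}

/-- `D` is in the base class and `Good` holds for `S_D` -/
def Event (S : Finset ℤ) (D : ℕ) : Prop := Base D ∧ Good (twists S D)

open scoped Classical in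
lemma count_eq (Q : ℕ → Prop) (X : ℕ) :
    Nat.card {t : ℕ // (1 ≤ t ∧ t ≤ X) ∧ (Base t ∧ Q t)} = count Q X := by
  unfold count
  refine Nat.subtype_card _ fun n => ?_
  rw [Finset.mem_filter, Finset.mem_Icc]

lemma count_true (X : ℕ) :
    Nat.card {t : ℕ // (1 ≤ t ∧ t ≤ X) ∧ Base t} = count (fun _ => True) X := by
  rw [← count_eq]
  exact Nat.card_congr (Equiv.subtypeEquivRight fun t =>
    ⟨fun h => ⟨h.1, h.2, trivial⟩, fun h => ⟨h.1, h.2.1⟩⟩)

/-- **Main theorem.** Let `p > 1` be a real number. There is a set `A₀` of real numbers of Hausdorff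
dimension smaller than one such that for all real `α > 0` not in `A₀`:
(1) at least `b N (log N)^(-3/4)` of the `n ≤ N` are such that `D = ⌊α n ^ p⌋` is in the base class
(`b > 0`, `N` large);
(2) for all finite subsets `S` of the class `Adm` and for a proportion tending to `c ^ #S` of these `n`,
`c = 0.419...`, the assertion `Good` holds for the set `S_D` of `#S` twists: Beilinson's conjecture
holds for `H¹` of the abelian variety `X_{S_D}` of dimension `#S`, whose group of rational points is
finite, the groups `Ш(E_N)[2^∞]`, `N ∈ S_D`, are zero, and the rational factor is known up to a 2-adic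
unit. The set `S_D` has `#S` elements for all `D` of the base class, and sets `S` with any number of
elements exist.
(3) in particular, for each `r` infinitely many terms `D` of the sequence give an abelian variety of
dimension `r` with these properties. -/
theorem result (p : ℝ) (hp : 1 < p) :
    ∃ A₀ : Set ℝ, dimH A₀ < 1 ∧ ∀ α : ℝ, 0 < α → α ∉ A₀ →
      (∃ b : ℝ, 0 < b ∧ ∃ N₀ : ℕ, ∀ N : ℕ, N₀ ≤ N →
        b * N * (Real.log N) ^ (-(3 / 4) : ℝ) ≤ (along α p Base N : ℝ)) ∧
      (∀ S : Finset ℤ, (∀ M ∈ S, Adm M) →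
        Tendsto (fun N : ℕ => (along α p (fun D => Base D ∧ Good (twists S D)) N : ℝ) /
          along α p Base N) atTop (𝓝 (cc ^ S.card)) ∧
        ∀ D : ℕ, Base D → (twists S D).card = S.card ∧ ∀ N ∈ twists S D, Adm N) ∧
      ∀ r : ℕ, ∃ S : Finset ℤ, S.card = r ∧ (∀ M ∈ S, Adm M) ∧
        {n : ℕ | Base ⌊α * (n : ℝ) ^ p⌋₊ ∧ Good (twists S ⌊α * (n : ℝ) ^ p⌋₊)}.Infinite := by
  obtain ⟨A₀, hA₀, h⟩ := Pool.Agent.V1110.SpA.ratio_nat p hp
    (ι := Finset ℤ) (fun S => Event S) (fun _ => Base)
  obtain ⟨-, h2, h3, h4, b, X₀, hb, h5⟩ := ProductsOfTwists.result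
  refine ⟨A₀, hA₀, fun α hα hαA => ?_⟩
  have key : ∀ S : Finset ℤ, (∀ M ∈ S, Adm M) →
      Tendsto (fun N : ℕ => (along α p (fun D => Base D ∧ Good (twists S D)) N : ℝ) /
          along α p Base N) atTop (𝓝 (cc ^ S.card)) ∧
        ∃ b : ℝ, 0 < b ∧ ∃ N0 : ℕ, ∀ N : ℕ, N0 ≤ N →
          b * N * (Real.log N) ^ (-(3 / 4) : ℝ) ≤ (along α p Base N : ℝ) := by
    intro S hS
    refine h α hα hαA S _ b (3 / 4) hb (by norm_num) ⟨X₀, fun X hX => ?_⟩ ?_
    · rw [count_true]
      exact h5 X hX
    · refine (h2 S hS).2.congr fun X => ?_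
      rw [count_true]
      have e : Nat.card {t : ℕ // (1 ≤ t ∧ t ≤ X) ∧ Event S t} =
          count (fun D => Good (twists S D)) X := count_eq (fun D => Good (twists S D)) X
      rw [e]
  refine ⟨(key ∅ (by simp)).2, fun S hS => ⟨(key S hS).1, (h2 S hS).1⟩, fun r => ?_⟩
  obtain ⟨S, hSr, hS⟩ := h3 r
  refine ⟨S, hSr, hS, ?_⟩
  obtain ⟨hk, b', hb', N₀, hN₀⟩ := key S hS
  by_contra hfin
  rw [Set.not_infinite] at hfin
  have hbd : ∀ N : ℕ, (along α p (fun D => Base D ∧ Good (twists S D)) N : ℝ) ≤
      (hfin.toFinset.card : ℝ) := by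
    intro N
    unfold along
    have e : Nat.card {n : ℕ // (1 ≤ n ∧ n ≤ N) ∧ (Base ⌊α * (n : ℝ) ^ p⌋₊ ∧
        Good (twists S ⌊α * (n : ℝ) ^ p⌋₊))} ≤ Nat.card hfin.toFinset := by
      refine Nat.card_le_card_of_injective (fun n => ⟨n.1, ?_⟩) fun n m hnm => ?_
      · rw [Set.Finite.mem_toFinset]
        exact n.2.2
      · exact Subtype.ext (congrArg (fun z : hfin.toFinset => z.1) hnm)
    have e2 : Nat.card hfin.toFinset = hfin.toFinset.card := by
      rw [Nat.card_eq_fintype_card, Fintype.card_coe]
    rw [e2] at e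
    exact_mod_cast e
  have hinf : Tendsto (fun N : ℕ => (along α p Base N : ℝ)) atTop atTop := by
    have h6 : Tendsto (fun N : ℕ => b' * N * (Real.log N) ^ (-(3 / 4) : ℝ)) atTop atTop := by
      have h7 : Tendsto (fun x : ℝ => x / (Real.log x) ^ ((3 / 4 : ℝ))) atTop atTop := by
        have h8 := (isLittleO_log_rpow_rpow_atTop (3 / 4 : ℝ) (s := (1 / 2 : ℝ)) (by norm_num))
        have h9 : Tendsto (fun x : ℝ => x ^ (1 / 2 : ℝ)) atTop atTop :=
          tendsto_rpow_atTop (by norm_num)
        refine tendsto_atTop_mono' _ ?_ h9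
        filter_upwards [h8.bound (c := 1) one_pos, eventually_gt_atTop (Real.exp 1)] with x hx hx1
        have hx0 : 0 < x := (Real.exp_pos 1).trans hx1
        have hl : 1 < Real.log x := by rwa [Real.lt_log_iff_exp_lt hx0]
        have hl' : 0 < (Real.log x) ^ (3 / 4 : ℝ) := Real.rpow_pos_of_pos (by linarith) _
        rw [one_mul, Real.norm_of_nonneg hl'.le,
          Real.norm_of_nonneg (Real.rpow_nonneg hx0.le _)] at hx
        rw [le_div_iff₀ hl']
        calc x ^ (1 / 2 : ℝ) * (Real.log x) ^ (3 / 4 : ℝ) ≤ x ^ (1 / 2 : ℝ) * x ^ (1 / 2 : ℝ) :=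
              mul_le_mul_of_nonneg_left hx (Real.rpow_nonneg hx0.le _)
          _ = x := by rw [← Real.rpow_add hx0]; norm_num
      have h10 := (h7.comp tendsto_natCast_atTop_atTop).const_mul_atTop hb'
      refine h10.congr fun N => ?_
      simp only [Function.comp_apply]
      rw [Real.rpow_neg (Real.log_natCast_nonneg N), div_eq_mul_inv, mul_assoc]
    refine tendsto_atTop_mono' _ ?_ h6
    filter_upwards [eventually_ge_atTop N₀] with N hN using hN₀ N hN
  have h0 : Tendsto (fun N : ℕ => (along α p (fun D => Base D ∧ Good (twists S D)) N : ℝ) /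
      along α p Base N) atTop (𝓝 0) := by
    refine squeeze_zero (fun N => by positivity)
      (fun N => div_le_div_of_nonneg_right (hbd N) (Nat.cast_nonneg _)) ?_
    exact hinf.const_div_atTop _
  have h11 := tendsto_nhds_unique hk h0
  have h12 : (0 : ℝ) < cc ^ S.card := pow_pos (by linarith [h4.1]) _
  linarith

end Pool.Agent.Results.MP_29b22a_nt.SparseSequences
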